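import Mathlib

set_option autoImplicit false

open MvPolynomial

namespace Pool.Agent.Results.MP_ce7760_an.LeastRank

/-- There is a sum of squares of rank `m` on `ℂ^n` (that is `∑ |p_j(z)|^2` with `m` linearly
independent holomorphic polynomials `p_j`) which is divisible by `‖z‖^(2d)`: it equals
`‖z‖^(2d) A(z, conj z)` for a polynomial `A` in `z` and `conj z`. -/
def Rk (d n m : ℕ) : Prop :=
  ∃ (p : Fin m → MvPolynomial (Fin n) ℂ) (A : MvPolynomial (Fin n ⊕ Fin n) ℂ),
    LinearIndependent ℂ p ∧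
    ∀ z : Fin n → ℂ, ((∑ j, ‖eval z (p j)‖ ^ 2 : ℝ) : ℂ) =
      ((∑ k, ‖z k‖ ^ 2 : ℝ) : ℂ) ^ d * eval (Sum.elim z (fun k => star (z k))) A

/-- The set `S_d(n)` of the ranks. -/
def S (d n : ℕ) : Set ℕ := {m | Rk d n m}

/-- the ring `ℂ[z_1..z_k][u]` -/
abbrev SR (k : ℕ) : Type := Polynomial (MvPolynomial (Fin k) ℂ)

/-- the ring `ℂ[z_1..z_k][u][t_1..t_k]` -/
abbrev TR (k : ℕ) : Type := MvPolynomial (Fin k) (SR k)

/-- `u + ∑ z_i t_i` -/
noncomputable def L (k : ℕ) : TR k :=
  C (Polynomial.X : SR k) + ∑ i : Fin k, C (Polynomial.C (X i) : SR k) * X i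

/-- The change of coordinates: `z_i ↦ z_i`, `w_i ↦ t_i + w0_i` for `i < k` and
`w_k ↦ c`, `z_k ↦ c⁻¹ (u - ∑ z_i w0_i)`; it maps `∑ z_i w_i` to `L`. -/
noncomputable def Ph (k : ℕ) (c : ℂ) (w0 : Fin k → ℂ) :
    MvPolynomial (Fin (k + 1) ⊕ Fin (k + 1)) ℂ →ₐ[ℂ] TR k :=
  aeval (Sum.elim
    (Fin.lastCases (C (algebraMap ℂ (SR k) c⁻¹ *
      (Polynomial.X - ∑ i, Polynomial.C (X i) * algebraMap ℂ (SR k) (w0 i))))
      (fun i => C (Polynomial.C (X i))))
    (Fin.lastCases (C (algebraMap ℂ (SR k) c))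
      (fun i => X i + C (algebraMap ℂ (SR k) (w0 i)))))

/-- polarisation -/
theorem polar {n : ℕ} (P : MvPolynomial (Fin n ⊕ Fin n) ℂ)
    (h : ∀ z : Fin n → ℂ, eval (Sum.elim z (fun k => star (z k))) P = 0) : P = 0 := by
  let g : Fin n ⊕ Fin n → MvPolynomial (Fin n ⊕ Fin n) ℂ :=
    Sum.elim (fun k => X (Sum.inl k) + C Complex.I * X (Sum.inr k))
      (fun k => X (Sum.inl k) - C Complex.I * X (Sum.inr k))
  have hev : ∀ v : Fin n ⊕ Fin n → ℂ, eval v (bind₁ g P) =
      eval (Sum.elim (fun k => v (Sum.inl k) + Complex.I * v (Sum.inr k))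
        (fun k => v (Sum.inl k) - Complex.I * v (Sum.inr k))) P := by
    intro v
    have h1 : eval v (bind₁ g P) = eval (fun i => eval v (g i)) P :=
      eval₂Hom_bind₁ (RingHom.id ℂ) v g P
    rw [h1]
    congr 2
    funext i
    rcases i with k | k <;> simp [g]
  have hQ : bind₁ g P = 0 := by
    refine MvPolynomial.funext_set (fun _ => Set.range (fun r : ℝ => (r : ℂ)))
      (fun _ => Set.infinite_range_of_injective Complex.ofReal_injective) ?_
    intro v hv
    have hr : ∀ i, ∃ r : ℝ, (r : ℂ) = v i := fun i => hv i (Set.mem_univ i)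
    choose r hr using hr
    rw [map_zero, hev, ← h (fun k => v (Sum.inl k) + Complex.I * v (Sum.inr k))]
    congr 2
    funext i
    rcases i with k | k
    · rfl
    · simp only [Sum.elim_inr]
      rw [← hr, ← hr]
      simp [sub_eq_add_neg]
  apply MvPolynomial.funext
  intro u
  have h2 := hev (Sum.elim (fun k => (u (Sum.inl k) + u (Sum.inr k)) / 2)
    (fun k => (u (Sum.inl k) - u (Sum.inr k)) / (2 * Complex.I)))
  rw [hQ, map_zero] at h2
  rw [map_zero, h2]
  congr 2
  funext i
  rcases i with k | k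
  · simp only [Sum.elim_inl, Sum.elim_inr]
    field_simp
    ring
  · simp only [Sum.elim_inl, Sum.elim_inr]
    field_simp
    ring

theorem coeff_L_step (k : ℕ) (f : TR k) (b : Fin k →₀ ℕ) :
    coeff b (L k * f) = Polynomial.X * coeff b f +
      ∑ i ∈ b.support, Polynomial.C (X i) * coeff (b - Finsupp.single i 1) f := by
  classical
  unfold L
  rw [add_mul, coeff_add, coeff_C_mul, Finset.sum_mul, coeff_sum]
  congr 1
  rw [← Finset.sum_subset (Finset.subset_univ b.support)]
  · apply Finset.sum_congr rfl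
    intro i hi
    rw [mul_assoc, coeff_C_mul, coeff_X_mul', if_pos hi]
  · intro i _ hi
    rw [mul_assoc, coeff_C_mul, coeff_X_mul', if_neg hi, mul_zero]

theorem single_add (k : ℕ) (b : Fin k →₀ ℕ) (i : Fin k) (hi : i ∈ b.support) :
    b - Finsupp.single i 1 + Finsupp.single i 1 = b := by
  apply tsub_add_cancel_of_le
  rw [Finsupp.single_le_iff]
  exact Nat.one_le_iff_ne_zero.2 (Finsupp.mem_support_iff.1 hi)

theorem deg_sub (k : ℕ) (b : Fin k →₀ ℕ) (i : Fin k) (hi : i ∈ b.support) :
    b.degree = (b - Finsupp.single i 1).degree + 1 := by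
  conv_lhs => rw [← single_add k b i hi]
  rw [map_add, Finsupp.degree_single]

theorem mon_mul (k : ℕ) (b : Fin k →₀ ℕ) (i : Fin k) (hi : i ∈ b.support) :
    (X i : MvPolynomial (Fin k) ℂ) * monomial (b - Finsupp.single i 1) 1 = monomial b 1 := by
  rw [X, monomial_mul, one_mul, add_comm, single_add k b i hi]

theorem coeff_L_aux (k D : ℕ) : ∀ b : Fin k →₀ ℕ, ∃ N : ℕ, (D < b.degree → N = 0) ∧
    (b.degree ≤ D → 0 < N) ∧
    coeff b (L k ^ D) =
      (N : SR k) * (Polynomial.C (monomial b (1 : ℂ)) * Polynomial.X ^ (D - b.degree)) := by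
  classical
  induction D with
  | zero =>
    intro b
    by_cases hb : b = 0
    · subst hb
      refine ⟨1, ?_, ?_, ?_⟩
      · intro h; simp at h
      · intro _; norm_num
      · simp
    · have hd : 0 < b.degree := by
        rw [Nat.pos_iff_ne_zero]
        intro h
        exact hb ((Finsupp.degree_eq_zero_iff b).1 h)
      refine ⟨0, fun _ => rfl, fun h => by omega, ?_⟩
      rw [pow_zero, coeff_one, if_neg (Ne.symm hb)]
      simp
  | succ D ih =>
    choose N h0 h1 h2 using ih
    intro b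
    refine ⟨N b + ∑ i ∈ b.support, N (b - Finsupp.single i 1), ?_, ?_, ?_⟩
    · intro h
      rw [h0 b (by omega), zero_add]
      apply Finset.sum_eq_zero
      intro i hi
      apply h0
      have := deg_sub k b i hi
      omega
    · intro h
      by_cases h' : b.degree ≤ D
      · have := h1 b h'
        omega
      · have hd : b.degree = D + 1 := by omega
        have hne : b.support.Nonempty := by
          rw [Finset.nonempty_iff_ne_empty]
          intro he
          rw [Finsupp.support_eq_empty.1 he] at hd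
          simp at hd
        obtain ⟨i, hi⟩ := hne
        have e := deg_sub k b i hi
        have p1 : 0 < N (b - Finsupp.single i 1) := h1 _ (by omega)
        have p2 : N (b - Finsupp.single i 1) ≤ ∑ i ∈ b.support, N (b - Finsupp.single i 1) :=
          Finset.single_le_sum (f := fun i => N (b - Finsupp.single i 1)) (fun _ _ => Nat.zero_le _) hi
        omega
    · have key1 : ∀ x n c p : SR k, x * (n * (c * p)) = n * (c * (p * x)) := by
        intros; ring
      have key2 : ∀ a n c p : SR k, a * (n * (c * p)) = n * ((a * c) * p) := by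
        intros; ring
      rw [pow_succ', coeff_L_step, h2 b]
      rw [Nat.cast_add, Nat.cast_sum, add_mul, Finset.sum_mul]
      refine congrArg₂ (· + ·) ?_ ?_
      · by_cases h' : b.degree ≤ D
        · have e : D + 1 - b.degree = (D - b.degree) + 1 := by omega
          rw [e, pow_succ, key1]
        · rw [h0 b (by omega)]
          simp
      · apply Finset.sum_congr rfl
        intro i hi
        rw [h2]
        have e := deg_sub k b i hi
        have e2 : D - (b - Finsupp.single i 1).degree = D + 1 - b.degree := by omega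
        rw [e2, key2, ← Polynomial.C_mul, mon_mul k b i hi]

/-- powers of `L` -/
theorem coeff_L (k D : ℕ) (b : Fin k →₀ ℕ) :
    (D < b.degree → coeff b (L k ^ D) = 0) ∧
    (b.degree ≤ D → ∃ N : ℕ, 0 < N ∧ coeff b (L k ^ D) =
      (N : SR k) * (Polynomial.C (monomial b (1 : ℂ)) * Polynomial.X ^ (D - b.degree))) := by
  obtain ⟨N, h0, h1, h2⟩ := coeff_L_aux k D b
  refine ⟨fun h => ?_, fun h => ⟨N, h1 h, h2⟩⟩
  rw [h2, h0 h]
  simp

theorem exists_functional_count (k d : ℕ) :
    ∃ F : Finset (Fin k →₀ ℕ), (∀ a ∈ F, a.degree ≤ d) ∧ F.card = (k + d).choose d := by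
  classical
  let B : Finset (Fin (k + 1) →₀ ℕ) := (Finset.univ : Finset (Fin (k + 1))).finsuppAntidiag d
  let ρ : (Fin (k + 1) →₀ ℕ) → (Fin k →₀ ℕ) := fun f =>
    Finsupp.equivFunOnFinite.symm (fun i : Fin k => f i.castSucc)
  have hB : ∀ f ∈ B, ∑ i : Fin k, f i.castSucc + f (Fin.last k) = d := by
    intro f hf
    have := (Finset.mem_finsuppAntidiag.1 hf).1
    rw [Fin.sum_univ_castSucc] at this
    exact this
  refine ⟨B.image ρ, ?_, ?_⟩
  · intro a ha
    obtain ⟨f, hf, rfl⟩ := Finset.mem_image.1 ha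
    have h1 := hB f hf
    have h2 : (ρ f).degree = ∑ i : Fin k, f i.castSucc := by
      rw [Finsupp.degree_eq_sum]
      rfl
    omega
  · rw [Finset.card_image_of_injOn]
    · rw [Finset.card_finsuppAntidiag_nat_eq_choose]
      simp only [Finset.card_univ, Fintype.card_fin]
      congr 1
      omega
    · intro f hf g hg hfg
      have hf' := hB f hf
      have hg' := hB g hg
      have hc : ∀ i : Fin k, f i.castSucc = g i.castSucc := by
        intro i
        have := DFunLike.congr_fun hfg i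
        exact this
      have hs : ∑ i : Fin k, f i.castSucc = ∑ i : Fin k, g i.castSucc :=
        Finset.sum_congr rfl fun i _ => hc i
      ext i
      refine Fin.lastCases ?_ (fun i => hc i) i
      omega

/-- linear algebra and counting -/
theorem exists_functional {k d m : ℕ} (hm : m < (k + d).choose d)
    (q : Fin m → MvPolynomial (Fin k) ℂ) :
    ∃ c : (Fin k →₀ ℕ) →₀ ℂ, c ≠ 0 ∧ (∀ a ∈ c.support, a.degree ≤ d) ∧
      ∀ j, ∑ a ∈ c.support, c a * coeff a (q j) = 0 := by
  classical
  obtain ⟨F, hF1, hF2⟩ := exists_functional_count k d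
  let φ : (F → ℂ) →ₗ[ℂ] (Fin m → ℂ) :=
    { toFun := fun x j => ∑ a : F, x a * coeff a.1 (q j)
      map_add' := by
        intro x y
        funext j
        simp only [Pi.add_apply, add_mul, Finset.sum_add_distrib]
      map_smul' := by
        intro c x
        funext j
        simp only [Pi.smul_apply, smul_eq_mul, RingHom.id_apply, Finset.mul_sum, mul_assoc] }
  have hker : LinearMap.ker φ ≠ ⊥ := by
    apply LinearMap.ker_ne_bot_of_finrank_lt
    rw [Module.finrank_fin_fun, Module.finrank_fintype_fun_eq_card, Fintype.card_coe, hF2]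
    exact hm
  obtain ⟨x, hx, hx0⟩ := Submodule.exists_mem_ne_zero_of_ne_bot hker
  have hx' : ∀ j, ∑ a : F, x a * coeff a.1 (q j) = 0 := fun j => congrFun (LinearMap.mem_ker.1 hx) j
  let c : (Fin k →₀ ℕ) →₀ ℂ := Finsupp.onFinset F (fun a => if h : a ∈ F then x ⟨a, h⟩ else 0)
    (by
      intro a ha
      by_contra h
      exact ha (by simp [h]))
  have hcv : ∀ a : F, c a.1 = x a := by
    intro a
    simp [c]
  have hsup : c.support ⊆ F := Finsupp.support_onFinset_subset
  refine ⟨c, ?_, fun a ha => hF1 a (hsup ha), fun j => ?_⟩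
  · intro h
    apply hx0
    funext a
    rw [← hcv a, h]
    rfl
  · have h1 : ∑ a ∈ c.support, c a * coeff a (q j) = ∑ a ∈ F, c a * coeff a (q j) := by
      refine Finset.sum_subset hsup fun a _ ha => ?_
      rw [Finsupp.notMem_support_iff.1 ha, zero_mul]
    rw [h1, ← Finset.sum_coe_sort F]
    rw [← hx' j]
    refine Finset.sum_congr rfl fun a _ => ?_
    rw [hcv a]

/-- the leading term in `u` -/
theorem core {k D : ℕ} (B : TR k) (hB : (coeff 0 B).eval 0 ≠ 0)
    (c : (Fin k →₀ ℕ) →₀ ℂ) (hc : c ≠ 0) (hd : ∀ a ∈ c.support, a.degree ≤ D) :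
    ∑ a ∈ c.support, algebraMap ℂ (SR k) (c a) * coeff a (L k ^ D * B) ≠ 0 := by
  classical
  have hne : c.support.Nonempty := Finsupp.support_nonempty_iff.2 hc
  obtain ⟨a0, ha0, hmax⟩ := Finset.exists_max_image c.support (fun a => a.degree) hne
  set K := a0.degree with hK
  have hKD : K ≤ D := hd a0 ha0
  have hr : ∀ b : Fin k →₀ ℕ, ∃ (r : SR k) (N : ℕ), b.degree ≤ K →
      coeff b (L k ^ D) = Polynomial.X ^ (D - K) * r ∧ (b.degree < K → r.eval 0 = 0) ∧
      (b.degree = K → 0 < N ∧ r.eval 0 = (N : MvPolynomial (Fin k) ℂ) * monomial b 1) := by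
    intro b
    by_cases hb : b.degree ≤ K
    · obtain ⟨N, hN, h⟩ := (coeff_L k D b).2 (hb.trans hKD)
      refine ⟨(N : SR k) * (Polynomial.C (monomial b (1 : ℂ)) * Polynomial.X ^ (K - b.degree)), N,
        fun _ => ⟨?_, ?_, ?_⟩⟩
      · rw [h]
        have e : D - b.degree = (D - K) + (K - b.degree) := by omega
        rw [e, pow_add]
        ring
      · intro hlt
        have e : K - b.degree ≠ 0 := by omega
        simp [e]
      · intro heq
        refine ⟨hN, ?_⟩
        have e : K - b.degree = 0 := by omega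
        simp [e]
    · exact ⟨0, 0, fun h => absurd h hb⟩
  choose r N hrN using hr
  have hco : ∀ a ∈ c.support, coeff a (L k ^ D * B) = Polynomial.X ^ (D - K) *
      ∑ x ∈ Finset.HasAntidiagonal.antidiagonal a, r x.1 * coeff x.2 B := by
    intro a ha
    rw [coeff_mul, Finset.mul_sum]
    refine Finset.sum_congr rfl fun x hx => ?_
    have h1 : x.1 + x.2 = a := Finset.HasAntidiagonal.mem_antidiagonal.1 hx
    have h2 : x.1.degree ≤ K := by
      have := hmax a ha
      rw [← h1, map_add] at this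
      omega
    rw [(hrN x.1 h2).1, mul_assoc]
  intro h0
  have h1 : (Polynomial.X : SR k) ^ (D - K) * ∑ a ∈ c.support, algebraMap ℂ (SR k) (c a) *
      ∑ x ∈ Finset.HasAntidiagonal.antidiagonal a, r x.1 * coeff x.2 B = 0 := by
    rw [Finset.mul_sum, ← h0]
    refine Finset.sum_congr rfl fun a ha => ?_
    rw [hco a ha]
    ring
  have h2 := (mul_eq_zero.1 h1).resolve_left (pow_ne_zero _ Polynomial.X_ne_zero)
  have h3 := congrArg (Polynomial.eval 0) h2
  rw [Polynomial.eval_finsetSum, Polynomial.eval_zero] at h3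
  have h4 : ∀ a ∈ c.support, Polynomial.eval 0 (algebraMap ℂ (SR k) (c a) *
      ∑ x ∈ Finset.HasAntidiagonal.antidiagonal a, r x.1 * coeff x.2 B) =
      (if a.degree = K then monomial a (c a * (N a : ℂ)) else 0) * (coeff 0 B).eval 0 := by
    intro a ha
    rw [Polynomial.eval_mul, Polynomial.eval_finsetSum]
    have hle := hmax a ha
    by_cases hdeg : a.degree = K
    · rw [if_pos hdeg, Finset.sum_eq_single (a, 0)]
      · rw [Polynomial.eval_mul, ((hrN a hdeg.le).2.2 hdeg).2]
        have e1 : Polynomial.eval 0 (algebraMap ℂ (SR k) (c a)) = (C (c a) : MvPolynomial (Fin k) ℂ) := by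
          rw [Polynomial.algebraMap_apply, Polynomial.eval_C]
          rfl
        have e2 : (monomial a (c a * (N a : ℂ)) : MvPolynomial (Fin k) ℂ) =
            C (c a) * ((N a : MvPolynomial (Fin k) ℂ) * monomial a 1) := by
          rw [← map_natCast (C : ℂ →+* MvPolynomial (Fin k) ℂ), C_mul_monomial, C_mul_monomial, mul_one]
        rw [e1, e2]
        ring
      · intro x hx hne
        have h5 : x.1 + x.2 = a := Finset.HasAntidiagonal.mem_antidiagonal.1 hx
        have h6 : x.1.degree < K := by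
          rcases Nat.lt_or_ge x.1.degree K with h | h
          · exact h
          · exfalso
            have h7 : x.1.degree + x.2.degree = a.degree := by rw [← h5, map_add]
            have h8 : x.2.degree = 0 := by omega
            have h9 : x.2 = 0 := (Finsupp.degree_eq_zero_iff _).1 h8
            apply hne
            rw [h9, add_zero] at h5
            exact Prod.ext h5 h9
        rw [Polynomial.eval_mul, (hrN x.1 h6.le).2.1 h6, zero_mul]
      · intro h
        exact absurd (Finset.HasAntidiagonal.mem_antidiagonal.2 (add_zero a)) h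
    · rw [if_neg hdeg, zero_mul, Finset.sum_eq_zero, mul_zero]
      intro x hx
      have h5 : x.1 + x.2 = a := Finset.HasAntidiagonal.mem_antidiagonal.1 hx
      have h7 : x.1.degree + x.2.degree = a.degree := by rw [← h5, map_add]
      have h6 : x.1.degree < K := by omega
      rw [Polynomial.eval_mul, (hrN x.1 h6.le).2.1 h6, zero_mul]
  rw [Finset.sum_congr rfl h4, ← Finset.sum_mul] at h3
  have h5 := (mul_eq_zero.1 h3).resolve_right hB
  have h6 := congrArg (coeff a0) h5
  rw [coeff_sum, coeff_zero, Finset.sum_eq_single a0] at h6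
  · rw [if_pos rfl, coeff_monomial, if_pos rfl] at h6
    have h7 := ((hrN a0 le_rfl).2.2 rfl).1
    have h8 := Finsupp.mem_support_iff.1 ha0
    rcases mul_eq_zero.1 h6 with h | h
    · exact h8 h
    · exact h7.ne' (by exact_mod_cast h)
  · intro a ha hne
    split_ifs
    · rw [coeff_monomial, if_neg hne]
    · exact coeff_zero _
  · intro h
    exact absurd ha0 h

/-- the intermediate change of coordinates -/
noncomputable def Psi (k : ℕ) (c : ℂ) :
    MvPolynomial (Fin (k + 1) ⊕ Fin (k + 1)) ℂ →ₐ[ℂ]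
      Polynomial (MvPolynomial (Fin k ⊕ Fin k) ℂ) :=
  aeval (Sum.elim
    (Fin.lastCases (Polynomial.C (C c⁻¹) *
      (Polynomial.X - ∑ i, Polynomial.C (X (Sum.inl i) * X (Sum.inr i))))
      (fun i => Polynomial.C (X (Sum.inl i))))
    (Fin.lastCases (Polynomial.C (C c))
      (fun i => Polynomial.C (X (Sum.inr i)))))

/-- the substitution of the coefficients -/
noncomputable def Gc (k : ℕ) (w0 : Fin k → ℂ) :
    MvPolynomial (Fin k ⊕ Fin k) ℂ →ₐ[ℂ] TR k :=
  aeval (Sum.elim (fun i => C (Polynomial.C (X i)))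
    (fun i => X i + C (algebraMap ℂ (SR k) (w0 i))))

/-- the second change of coordinates -/
noncomputable def Theta (k : ℕ) (w0 : Fin k → ℂ) :
    Polynomial (MvPolynomial (Fin k ⊕ Fin k) ℂ) →+* TR k :=
  Polynomial.eval₂RingHom (Gc k w0).toRingHom (L k)

theorem Theta_Psi (k : ℕ) (c : ℂ) (w0 : Fin k → ℂ)
    (A : MvPolynomial (Fin (k + 1) ⊕ Fin (k + 1)) ℂ) :
    Theta k w0 (Psi k c A) = Ph k c w0 A := by
  have h : (Theta k w0).comp (Psi k c).toRingHom = (Ph k c w0).toRingHom := by
    apply MvPolynomial.ringHom_ext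
    · intro r
      have h1 : (Psi k c) (C r) = Polynomial.C (C r) := by
        rw [← MvPolynomial.algebraMap_eq, AlgHom.commutes]; rfl
      have h2 : (Ph k c w0) (C r) = C (algebraMap ℂ (SR k) r) := by
        rw [← MvPolynomial.algebraMap_eq, AlgHom.commutes]; rfl
      have h3 : (Gc k w0) (C r) = C (algebraMap ℂ (SR k) r) := by
        rw [← MvPolynomial.algebraMap_eq, AlgHom.commutes]; rfl
      show Theta k w0 (Psi k c (C r)) = Ph k c w0 (C r)
      rw [h1, h2]
      show Polynomial.eval₂ (Gc k w0).toRingHom (L k) (Polynomial.C (C r)) = _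
      rw [Polynomial.eval₂_C]
      exact h3
    · rintro (i | i)
      · show Theta k w0 (Psi k c (X (Sum.inl i))) = Ph k c w0 (X (Sum.inl i))
        refine Fin.lastCases ?_ (fun i => ?_) i
        · simp only [Psi, Ph, aeval_X, Sum.elim_inl, Fin.lastCases_last]
          have h3 : (Gc k w0) (C c⁻¹) = C (algebraMap ℂ (SR k) c⁻¹) := by
            rw [← MvPolynomial.algebraMap_eq, AlgHom.commutes]; rfl
          have hC : ∀ x, Theta k w0 (Polynomial.C x) = Gc k w0 x := by
            intro x
            show Polynomial.eval₂ (Gc k w0).toRingHom (L k) (Polynomial.C x) = _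
            rw [Polynomial.eval₂_C]; rfl
          have hX : Theta k w0 Polynomial.X = L k := by
            show Polynomial.eval₂ (Gc k w0).toRingHom (L k) Polynomial.X = _
            rw [Polynomial.eval₂_X]
          rw [map_mul, map_sub, map_sum, hC, hX, h3, map_mul (C : SR k →+* TR k), map_sub (C : SR k →+* TR k), map_sum (C : SR k →+* TR k)]
          congr 1
          simp only [hC, map_mul, Gc, aeval_X, Sum.elim_inl, Sum.elim_inr, L, mul_add, Finset.sum_add_distrib]
          ring
        · simp only [Psi, Ph, aeval_X, Sum.elim_inl, Fin.lastCases_castSucc]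
          show Polynomial.eval₂ (Gc k w0).toRingHom (L k) (Polynomial.C _) = _
          rw [Polynomial.eval₂_C]
          show Gc k w0 _ = _
          simp only [Gc, aeval_X, Sum.elim_inl]
      · show Theta k w0 (Psi k c (X (Sum.inr i))) = Ph k c w0 (X (Sum.inr i))
        refine Fin.lastCases ?_ (fun i => ?_) i
        · simp only [Psi, Ph, aeval_X, Sum.elim_inr, Fin.lastCases_last]
          show Polynomial.eval₂ (Gc k w0).toRingHom (L k) (Polynomial.C _) = _
          rw [Polynomial.eval₂_C]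
          show Gc k w0 _ = _
          rw [← MvPolynomial.algebraMap_eq, AlgHom.commutes]; rfl
        · simp only [Psi, Ph, aeval_X, Sum.elim_inr, Fin.lastCases_castSucc]
          show Polynomial.eval₂ (Gc k w0).toRingHom (L k) (Polynomial.C _) = _
          rw [Polynomial.eval₂_C]
          show Gc k w0 _ = _
          simp only [Gc, aeval_X, Sum.elim_inr]
  exact congrArg (fun f => f A) h

/-- evaluation of the image of `Psi` -/
theorem eval_Psi (k : ℕ) (p : Fin (k + 1) ⊕ Fin (k + 1) → ℂ) (hc : p (Sum.inr (Fin.last k)) ≠ 0)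
    (A : MvPolynomial (Fin (k + 1) ⊕ Fin (k + 1)) ℂ) :
    eval (Sum.elim (fun i => p (Sum.inl (Fin.castSucc i))) (fun i => p (Sum.inr (Fin.castSucc i))))
      (Polynomial.eval (C (∑ i, p (Sum.inl i) * p (Sum.inr i)))
        (Psi k (p (Sum.inr (Fin.last k))) A)) = eval p A := by
  set c := p (Sum.inr (Fin.last k)) with hcdef
  have h : ((eval (Sum.elim (fun i => p (Sum.inl (Fin.castSucc i))) (fun i => p (Sum.inr (Fin.castSucc i))))).comp
      (Polynomial.evalRingHom (C (∑ i, p (Sum.inl i) * p (Sum.inr i))))).comp (Psi k c).toRingHom = eval p := by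
    apply MvPolynomial.ringHom_ext
    · intro r
      have h1 : (Psi k c) (C r) = Polynomial.C (C r) := by
        rw [← MvPolynomial.algebraMap_eq, AlgHom.commutes]; rfl
      show eval _ (Polynomial.eval _ (Psi k c (C r))) = eval p (C r)
      rw [h1]; simp
    · rintro (i | i)
      · show eval _ (Polynomial.eval _ (Psi k c (X (Sum.inl i)))) = eval p (X (Sum.inl i))
        refine Fin.lastCases ?_ (fun i => ?_) i
        · simp only [Psi, aeval_X, Sum.elim_inl, Fin.lastCases_last]
          simp only [Polynomial.eval_mul, Polynomial.eval_C, Polynomial.eval_sub, Polynomial.eval_X,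
            Polynomial.eval_finsetSum, map_mul, map_sub, map_sum, eval_C, eval_X, Sum.elim_inl,
            Sum.elim_inr, Fin.sum_univ_castSucc]
          rw [← hcdef]
          field_simp
          ring
        · simp only [Psi, aeval_X, Sum.elim_inl, Fin.lastCases_castSucc, Polynomial.eval_C, eval_X]
      · show eval _ (Polynomial.eval _ (Psi k c (X (Sum.inr i)))) = eval p (X (Sum.inr i))
        refine Fin.lastCases ?_ (fun i => ?_) i
        · simp only [Psi, aeval_X, Sum.elim_inr, Fin.lastCases_last, Polynomial.eval_C, eval_C, eval_X]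
          exact hcdef
        · simp only [Psi, aeval_X, Sum.elim_inr, Fin.lastCases_castSucc, Polynomial.eval_C, eval_X]
  exact congrArg (fun f => f A) h

/-- good coordinates exist -/
theorem exists_pt {k : ℕ} (A : MvPolynomial (Fin (k + 1) ⊕ Fin (k + 1)) ℂ) (hA : A ≠ 0) :
    ∃ (c : ℂ) (w0 : Fin k → ℂ) (e : ℕ) (B : TR k), c ≠ 0 ∧ Ph k c w0 A = L k ^ e * B ∧
      (coeff 0 B).eval 0 ≠ 0 := by
  have hne : A * X (Sum.inr (Fin.last k)) ≠ 0 := mul_ne_zero hA (X_ne_zero _)
  obtain ⟨p, hp⟩ : ∃ p, eval p (A * X (Sum.inr (Fin.last k))) ≠ 0 := by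
    by_contra hcon
    push Not at hcon
    exact hne (MvPolynomial.funext (fun x => by rw [hcon x, map_zero]))
  rw [map_mul, eval_X] at hp
  have hpA : eval p A ≠ 0 := left_ne_zero_of_mul hp
  have hc : p (Sum.inr (Fin.last k)) ≠ 0 := right_ne_zero_of_mul hp
  set c := p (Sum.inr (Fin.last k)) with hcdef
  have hPsi : Psi k c A ≠ 0 := by
    intro h0
    apply hpA
    rw [← eval_Psi k p hc A, ← hcdef, h0]
    simp
  obtain ⟨A2, hA2, hnd⟩ := Polynomial.exists_eq_pow_rootMultiplicity_mul_and_not_dvd (Psi k c A) hPsi 0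
  set e := Polynomial.rootMultiplicity 0 (Psi k c A) with he
  rw [map_zero, sub_zero] at hA2 hnd
  have hA20 : A2.coeff 0 ≠ 0 := fun h => hnd (Polynomial.X_dvd_iff.mpr h)
  obtain ⟨q, hq⟩ : ∃ q, eval q (A2.coeff 0) ≠ 0 := by
    by_contra hcon
    push Not at hcon
    exact hA20 (MvPolynomial.funext (fun x => by rw [hcon x, map_zero]))
  set w0 : Fin k → ℂ := fun i => q (Sum.inr i) with hw0
  refine ⟨c, w0, e, Theta k w0 A2, hc, ?_, ?_⟩
  · rw [← Theta_Psi, hA2, map_mul, map_pow]
    congr 2
    show Polynomial.eval₂ (Gc k w0).toRingHom (L k) Polynomial.X = _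
    rw [Polynomial.eval₂_X]
  · intro h0
    apply hq
    have h : ((eval (fun i => q (Sum.inl i))).comp ((Polynomial.evalRingHom (0 : MvPolynomial (Fin k) ℂ)).comp
        (constantCoeff : TR k →+* SR k))).comp (Theta k w0) =
        (eval q).comp (Polynomial.evalRingHom (0 : MvPolynomial (Fin k ⊕ Fin k) ℂ)) := by
      apply Polynomial.ringHom_ext'
      · apply MvPolynomial.ringHom_ext
        · intro r
          have h3 : (Gc k w0) (C r) = C (algebraMap ℂ (SR k) r) := by
            rw [← MvPolynomial.algebraMap_eq, AlgHom.commutes]; rfl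
          show eval _ (Polynomial.eval 0 (constantCoeff (Polynomial.eval₂ (Gc k w0).toRingHom (L k) (Polynomial.C (C r))))) = eval q (Polynomial.eval 0 (Polynomial.C (C r)))
          rw [Polynomial.eval₂_C]
          show eval _ (Polynomial.eval 0 (constantCoeff (Gc k w0 (C r)))) = _
          rw [h3, constantCoeff_C]
          show eval _ (Polynomial.eval 0 (Polynomial.C (C r))) = _
          simp
        · rintro (i | i)
          · show eval _ (Polynomial.eval 0 (constantCoeff (Polynomial.eval₂ (Gc k w0).toRingHom (L k) (Polynomial.C (X (Sum.inl i)))))) = eval q (Polynomial.eval 0 (Polynomial.C (X (Sum.inl i))))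
            rw [Polynomial.eval₂_C]
            show eval _ (Polynomial.eval 0 (constantCoeff (Gc k w0 (X (Sum.inl i))))) = _
            simp [Gc]
          · show eval _ (Polynomial.eval 0 (constantCoeff (Polynomial.eval₂ (Gc k w0).toRingHom (L k) (Polynomial.C (X (Sum.inr i)))))) = eval q (Polynomial.eval 0 (Polynomial.C (X (Sum.inr i))))
            rw [Polynomial.eval₂_C]
            show eval _ (Polynomial.eval 0 (constantCoeff (Gc k w0 (X (Sum.inr i))))) = _
            simp only [Gc, aeval_X, Sum.elim_inr, map_add, constantCoeff_X, constantCoeff_C, zero_add,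
              Polynomial.eval_C, eval_X]
            show eval _ (Polynomial.eval 0 (Polynomial.C (C (w0 i)))) = _
            simp [hw0]
      · show eval _ (Polynomial.eval 0 (constantCoeff (Polynomial.eval₂ (Gc k w0).toRingHom (L k) Polynomial.X))) = eval q (Polynomial.eval 0 Polynomial.X)
        rw [Polynomial.eval₂_X]
        simp [L]
    have h2 := congrArg (fun f => f A2) h
    have h3 : eval (fun i => q (Sum.inl i)) (Polynomial.eval 0 (constantCoeff (Theta k w0 A2))) =
        eval q (Polynomial.eval 0 A2) := h2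
    rw [Polynomial.coeff_zero_eq_eval_zero, ← h3]
    have h4 : (constantCoeff (Theta k w0 A2) : SR k) = coeff 0 (Theta k w0 A2) := rfl
    rw [h4, h0, map_zero]

theorem Ph_q {k : ℕ} (c : ℂ) (hc : c ≠ 0) (w0 : Fin k → ℂ) :
    Ph k c w0 (∑ i : Fin (k + 1), X (Sum.inl i) * X (Sum.inr i)) = L k := by
  unfold Ph L
  rw [map_sum, Fin.sum_univ_castSucc]
  simp only [map_mul, aeval_X, Sum.elim_inl, Sum.elim_inr, Fin.lastCases_castSucc,
    Fin.lastCases_last, mul_add, Finset.sum_add_distrib]
  have h1 : (C (algebraMap ℂ (SR k) c⁻¹) * C (algebraMap ℂ (SR k) c) : TR k) = 1 := by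
    rw [← C_mul, ← map_mul, inv_mul_cancel₀ hc, map_one, C_1]
  have h2 : (∑ i : Fin k, C (Polynomial.C (X i)) * C (algebraMap ℂ (SR k) (w0 i)) : TR k) =
      C (∑ i, Polynomial.C (X i) * algebraMap ℂ (SR k) (w0 i)) := by
    rw [map_sum]
    exact Finset.sum_congr rfl fun i _ => by rw [C_mul]
  rw [h2, C_sub]
  linear_combination (C Polynomial.X - C (∑ i, Polynomial.C (X i) * algebraMap ℂ (SR k) (w0 i))) * h1

theorem Ph_inl {k : ℕ} (c : ℂ) (w0 : Fin k → ℂ) (p : MvPolynomial (Fin (k + 1)) ℂ) :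
    ∃ P : SR k, Ph k c w0 (rename Sum.inl p) = C P := by
  induction p using MvPolynomial.induction_on with
  | C a =>
    refine ⟨algebraMap ℂ (SR k) a, ?_⟩
    rw [rename_C, ← algebraMap_eq, AlgHom.commutes]
    rfl
  | add p q hp hq =>
    obtain ⟨P, hP⟩ := hp
    obtain ⟨Q, hQ⟩ := hq
    exact ⟨P + Q, by rw [map_add, map_add, hP, hQ, C_add]⟩
  | mul_X p i hp =>
    obtain ⟨P, hP⟩ := hp
    rw [map_mul, map_mul, hP, rename_X]
    refine Fin.lastCases ?_ (fun i => ?_) i
    · refine ⟨P * (algebraMap ℂ (SR k) c⁻¹ *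
        (Polynomial.X - ∑ i, Polynomial.C (X i) * algebraMap ℂ (SR k) (w0 i))), ?_⟩
      unfold Ph
      rw [aeval_X, Sum.elim_inl, Fin.lastCases_last, ← C_mul]
    · refine ⟨P * Polynomial.C (X i), ?_⟩
      unfold Ph
      rw [aeval_X, Sum.elim_inl, Fin.lastCases_castSucc, C_mul]

theorem Ph_inr {k : ℕ} (c : ℂ) (w0 : Fin k → ℂ) (p : MvPolynomial (Fin (k + 1)) ℂ) :
    ∃ Q : MvPolynomial (Fin k) ℂ, Ph k c w0 (rename Sum.inr p) = map (algebraMap ℂ (SR k)) Q := by
  induction p using MvPolynomial.induction_on with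
  | C a =>
    refine ⟨C a, ?_⟩
    rw [rename_C, map_C, ← algebraMap_eq, AlgHom.commutes]
    rfl
  | add p q hp hq =>
    obtain ⟨P, hP⟩ := hp
    obtain ⟨Q, hQ⟩ := hq
    exact ⟨P + Q, by rw [map_add, map_add, hP, hQ, map_add]⟩
  | mul_X p i hp =>
    obtain ⟨P, hP⟩ := hp
    rw [map_mul, map_mul, hP, rename_X]
    refine Fin.lastCases ?_ (fun i => ?_) i
    · refine ⟨P * C c, ?_⟩
      unfold Ph
      rw [aeval_X, Sum.elim_inr, Fin.lastCases_last, map_mul, map_C]
    · refine ⟨P * (X i + C (w0 i)), ?_⟩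
      unfold Ph
      rw [aeval_X, Sum.elim_inr, Fin.lastCases_castSucc, map_mul, map_add, map_C, map_X]

/-- change of coordinates -/
theorem transfer {k d m : ℕ} (p q : Fin m → MvPolynomial (Fin (k + 1)) ℂ)
    (A : MvPolynomial (Fin (k + 1) ⊕ Fin (k + 1)) ℂ) (hA : A ≠ 0)
    (h : ∑ j, rename Sum.inl (p j) * rename Sum.inr (q j) =
      (∑ i : Fin (k + 1), X (Sum.inl i) * X (Sum.inr i)) ^ d * A) :
    ∃ (D : ℕ) (B : TR k) (P : Fin m → SR k) (Q : Fin m → MvPolynomial (Fin k) ℂ),
      d ≤ D ∧ (coeff 0 B).eval 0 ≠ 0 ∧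
      L k ^ D * B = ∑ j, C (P j) * map (algebraMap ℂ (SR k)) (Q j) := by
  obtain ⟨c, w0, e, B, hc, hB, hB0⟩ := exists_pt A hA
  choose P hP using fun j => Ph_inl c w0 (p j)
  choose Q hQ using fun j => Ph_inr c w0 (q j)
  refine ⟨d + e, B, P, Q, by omega, hB0, ?_⟩
  have h1 := congrArg (Ph k c w0) h
  rw [map_mul, map_pow, Ph_q c hc w0, hB, map_sum] at h1
  rw [pow_add, mul_assoc, ← h1]
  exact Finset.sum_congr rfl fun j _ => by rw [map_mul, hP, hQ]

/-- the lower bound for the rank -/
theorem rank_bound {k d m : ℕ} (p q : Fin m → MvPolynomial (Fin (k + 1)) ℂ)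
    (A : MvPolynomial (Fin (k + 1) ⊕ Fin (k + 1)) ℂ) (hA : A ≠ 0)
    (h : ∑ j, rename Sum.inl (p j) * rename Sum.inr (q j) =
      (∑ i : Fin (k + 1), X (Sum.inl i) * X (Sum.inr i)) ^ d * A) :
    (k + d).choose d ≤ m := by
  by_contra hcon
  push Not at hcon
  obtain ⟨D, B, P, Q, hdD, hB, hE⟩ := transfer p q A hA h
  have hmono : (k + d).choose d ≤ (k + D).choose D := by
    rw [← Nat.choose_symm_add, ← Nat.choose_symm_add]
    exact Nat.choose_le_choose k (by omega)
  obtain ⟨c, hc, hc1, hc2⟩ := exists_functional (lt_of_lt_of_le hcon hmono) Q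
  apply core B hB c hc hc1
  rw [hE]
  simp only [coeff_sum, coeff_C_mul, coeff_map, Finset.mul_sum]
  rw [Finset.sum_comm]
  apply Finset.sum_eq_zero
  intro j _
  have h1 : ∀ a ∈ c.support, algebraMap ℂ (SR k) (c a) *
      (P j * algebraMap ℂ (SR k) (coeff a (Q j))) =
      P j * algebraMap ℂ (SR k) (c a * coeff a (Q j)) := by
    intro a _
    rw [map_mul]
    ring
  rw [Finset.sum_congr rfl h1, ← Finset.mul_sum, ← map_sum, hc2 j, map_zero, mul_zero]

theorem exists_full_pos {n D : ℕ} (s : Sym (Fin n) D) : 0 < (s.1.countPerms : ℝ) := by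
  have h : 0 < s.1.countPerms := by
    unfold Multiset.countPerms Finsupp.multinomial
    exact Nat.div_pos (Nat.le_of_dvd (Nat.factorial_pos _) (Nat.prod_factorial_dvd_factorial_sum _ _))
      (Finset.prod_pos fun i _ => Nat.factorial_pos _)
  exact_mod_cast h

/-- the monomials -/
noncomputable def exists_full_p (n D : ℕ) (s : Sym (Fin n) D) : MvPolynomial (Fin n) ℂ :=
  monomial (Multiset.toFinsupp s.1) ((Real.sqrt (s.1.countPerms : ℝ) : ℝ) : ℂ)

theorem exists_full_lin (n D : ℕ) : LinearIndependent ℂ (exists_full_p n D) := by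
  have h1 : LinearIndependent ℂ (fun m : Fin n →₀ ℕ => (monomial m (1 : ℂ))) := by
    have := (basisMonomials (Fin n) ℂ).linearIndependent
    rwa [coe_basisMonomials] at this
  have hinj : Function.Injective (fun s : Sym (Fin n) D => Multiset.toFinsupp s.1) := by
    intro s t hst
    exact Subtype.ext (Multiset.toFinsupp.injective hst)
  have h2 := h1.comp _ hinj
  have hne : ∀ s : Sym (Fin n) D, ((Real.sqrt (s.1.countPerms : ℝ) : ℝ) : ℂ) ≠ 0 := by
    intro s
    have := Real.sqrt_pos.mpr (exists_full_pos s)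
    exact_mod_cast this.ne'
  have h3 := h2.units_smul (fun s => Units.mk0 _ (hne s))
  have h4 : exists_full_p n D = (fun s => Units.mk0 _ (hne s)) •
      ((fun m : Fin n →₀ ℕ => (monomial m (1 : ℂ))) ∘
        (fun s : Sym (Fin n) D => Multiset.toFinsupp s.1)) := by
    funext s
    show exists_full_p n D s = ((Real.sqrt (s.1.countPerms : ℝ) : ℝ) : ℂ) •
      monomial (Multiset.toFinsupp s.1) (1 : ℂ)
    rw [smul_monomial, smul_eq_mul, mul_one]
    rfl
  rw [h4]
  exact h3

theorem exists_full_norm (n D : ℕ) (s : Sym (Fin n) D) (z : Fin n → ℂ) :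
    ‖eval z (exists_full_p n D s)‖ ^ 2 =
      (s.1.countPerms : ℝ) * (s.1.map (fun k => ‖z k‖ ^ 2)).prod := by
  unfold exists_full_p
  rw [eval_monomial, norm_mul, mul_pow, Complex.norm_real, Real.norm_eq_abs, sq_abs,
    Real.sq_sqrt (exists_full_pos s).le]
  congr 1
  rw [Finset.prod_multiset_map_count, Finsupp.prod, norm_prod, ← Finset.prod_pow]
  rw [Multiset.toFinsupp_support]
  refine Finset.prod_congr rfl fun k _ => ?_
  rw [Multiset.toFinsupp_apply, norm_pow, ← pow_mul, ← pow_mul, mul_comm]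

/-- `‖z‖^(2D)` as a sum of squares -/
theorem exists_full (n D : ℕ) (hn : 1 ≤ n) :
    ∃ p : Fin ((n + D - 1).choose D) → MvPolynomial (Fin n) ℂ, LinearIndependent ℂ p ∧
      ∀ z : Fin n → ℂ, ∑ j, ‖eval z (p j)‖ ^ 2 = (∑ k, ‖z k‖ ^ 2) ^ D := by
  have hcard : Fintype.card (Sym (Fin n) D) = (n + D - 1).choose D := by
    rw [Sym.card_sym_fin_eq_multichoose, Nat.multichoose_eq]
  let e := (Fintype.equivFinOfCardEq hcard).symm
  refine ⟨fun j => exists_full_p n D (e j), (exists_full_lin n D).comp _ e.injective, ?_⟩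
  intro z
  rw [Equiv.sum_comp e (fun s => ‖eval z (exists_full_p n D s)‖ ^ 2), Finset.sum_pow,
    Finset.sym_univ]
  refine Finset.sum_congr rfl fun s _ => ?_
  rw [exists_full_norm]

/-- the case of one variable -/
theorem one_var (d m : ℕ) : Rk d 1 m := by
  refine ⟨fun j => monomial (Finsupp.single 0 (d + (j : ℕ))) 1,
    ∑ j : Fin m, (X (Sum.inl 0) * X (Sum.inr 0)) ^ (j : ℕ), ?_, fun z => ?_⟩
  · have h := (basisMonomials (Fin 1) ℂ).linearIndependent.comp
      (fun j : Fin m => Finsupp.single (0 : Fin 1) (d + (j : ℕ))) (by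
        intro i j hij
        have := Finsupp.single_injective (0 : Fin 1) hij
        exact Fin.ext (by omega))
    rw [coe_basisMonomials] at h
    exact h
  · rw [map_sum, Finset.mul_sum, Complex.ofReal_sum]
    refine Finset.sum_congr rfl fun j _ => ?_
    have e1 : (Finsupp.single (0 : Fin 1) (d + (j : ℕ))).prod (fun n e => z n ^ e) =
        z 0 ^ (d + (j : ℕ)) := Finsupp.prod_single_index (pow_zero _)
    rw [map_pow, map_mul, eval_X, eval_X, Sum.elim_inl, Sum.elim_inr, eval_monomial, e1,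
      one_mul, norm_pow, Complex.star_def,
      Complex.mul_conj, Complex.normSq_eq_norm_sq, Fin.sum_univ_one, ← Complex.ofReal_pow,
      ← Complex.ofReal_pow, ← Complex.ofReal_mul, ← pow_add, ← pow_mul, ← pow_mul, mul_comm 2]

theorem rk_zero (d n : ℕ) : Rk d n 0 := by
  refine ⟨Fin.elim0, 0, linearIndependent_empty_type, fun z => ?_⟩
  simp

theorem rk_full (d n D : ℕ) (hn : 1 ≤ n) (hD : d ≤ D) : Rk d n ((n + D - 1).choose D) := by
  obtain ⟨p, hp, h⟩ := exists_full n D hn
  refine ⟨p, (∑ k, X (Sum.inl k) * X (Sum.inr k)) ^ (D - d), hp, fun z => ?_⟩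
  rw [h z, map_pow, map_sum]
  have e : ∀ k : Fin n, eval (Sum.elim z (fun k => star (z k)))
      (X (Sum.inl k) * X (Sum.inr k) : MvPolynomial (Fin n ⊕ Fin n) ℂ) = ((‖z k‖ ^ 2 : ℝ) : ℂ) := by
    intro k
    rw [map_mul, eval_X, eval_X, Sum.elim_inl, Sum.elim_inr, Complex.star_def, Complex.mul_conj,
      Complex.normSq_eq_norm_sq]
  rw [Finset.sum_congr rfl (fun k _ => e k), ← Complex.ofReal_sum, ← Complex.ofReal_pow,
    ← Complex.ofReal_pow, ← Complex.ofReal_mul, ← pow_add, Nat.add_sub_cancel' hD]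

theorem rk_lower (d n m : ℕ) (hn : 1 ≤ n) (hm : m ≠ 0) (h : Rk d n m) :
    (n + d - 1).choose d ≤ m := by
  obtain ⟨k, rfl⟩ : ∃ k, n = k + 1 := ⟨n - 1, by omega⟩
  obtain ⟨p, A, hp, hE⟩ := h
  have hq : ∀ z : Fin (k + 1) → ℂ, ∀ f : MvPolynomial (Fin (k + 1)) ℂ,
      eval (fun i => star (z i)) (map (starRingEnd ℂ) f) = star (eval z f) := by
    intro z f
    induction f using MvPolynomial.induction_on with
    | C a =>
      rw [map_C, eval_C, eval_C]
      rfl
    | add p q hp hq => rw [map_add, map_add, hp, hq, map_add, star_add]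
    | mul_X p i hp => rw [map_mul, map_mul, hp, map_X, eval_X, map_mul, eval_X, star_mul']
  have hkey : ∀ z : Fin (k + 1) → ℂ, ∀ f : MvPolynomial (Fin (k + 1)) ℂ,
      eval (Sum.elim z (fun k => star (z k)))
        (rename Sum.inl f * rename Sum.inr (map (starRingEnd ℂ) f)) = ((‖eval z f‖ ^ 2 : ℝ) : ℂ) := by
    intro z f
    rw [map_mul, eval_rename, eval_rename, Sum.elim_comp_inl, Sum.elim_comp_inr, hq,
      Complex.star_def, Complex.mul_conj, Complex.normSq_eq_norm_sq]
  have hpol : ∑ j, rename Sum.inl (p j) * rename Sum.inr (map (starRingEnd ℂ) (p j)) -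
      (∑ i : Fin (k + 1), X (Sum.inl i) * X (Sum.inr i)) ^ d * A = 0 := by
    apply polar
    intro z
    have e : ∀ k' : Fin (k + 1), eval (Sum.elim z (fun k => star (z k)))
        (X (Sum.inl k') * X (Sum.inr k') : MvPolynomial (Fin (k + 1) ⊕ Fin (k + 1)) ℂ) =
        ((‖z k'‖ ^ 2 : ℝ) : ℂ) := by
      intro k'
      rw [map_mul, eval_X, eval_X, Sum.elim_inl, Sum.elim_inr, Complex.star_def, Complex.mul_conj,
        Complex.normSq_eq_norm_sq]
    rw [map_sub, map_sum, map_mul, map_pow, map_sum, Finset.sum_congr rfl (fun j _ => hkey z (p j)),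
      Finset.sum_congr rfl (fun k _ => e k), ← Complex.ofReal_sum, ← Complex.ofReal_sum, hE z,
      sub_self]
  have hA : A ≠ 0 := by
    rintro rfl
    have h0 : ∀ z : Fin (k + 1) → ℂ, ∀ j, eval z (p j) = 0 := by
      intro z j
      have h1 := hE z
      rw [map_zero, mul_zero, Complex.ofReal_eq_zero] at h1
      have h2 := (Finset.sum_eq_zero_iff_of_nonneg (fun j _ => sq_nonneg ‖eval z (p j)‖)).1 h1 j
        (Finset.mem_univ j)
      exact norm_eq_zero.1 (pow_eq_zero_iff two_ne_zero |>.1 h2)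
    have hm' : 0 < m := Nat.pos_of_ne_zero hm
    have h3 : p ⟨0, hm'⟩ = 0 := MvPolynomial.funext fun z => by rw [h0, map_zero]
    exact hp.ne_zero ⟨0, hm'⟩ h3
  have := rank_bound p (fun j => map (starRingEnd ℂ) (p j)) A hA (sub_eq_zero.1 hpol)
  have e : k + 1 + d - 1 = k + d := by omega
  rw [e]
  exact this

theorem app_li899 {V : Type*} [AddCommGroup V] [Module ℂ V] {a b : ℕ} (p : Fin a → V)
    (q : Fin b → V) (hp : LinearIndependent ℂ p) (hq : LinearIndependent ℂ q)
    (h : Disjoint (Submodule.span ℂ (Set.range p)) (Submodule.span ℂ (Set.range q))) :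
    LinearIndependent ℂ (Fin.append p q) := by
  have h1 := hp.sum_type hq h
  have h2 : Fin.append p q = Sum.elim p q ∘ finSumFinEquiv.symm := by
    funext i
    refine Fin.addCases (fun j => ?_) (fun j => ?_) i
    · simp
    · simp
  rw [h2]
  exact (linearIndependent_equiv finSumFinEquiv.symm).2 h1

theorem span_low899 {n a N : ℕ} (i0 : Fin n) (p : Fin a → MvPolynomial (Fin n) ℂ)
    (hN : ∀ j, degreeOf i0 (p j) < N) (f : MvPolynomial (Fin n) ℂ)
    (hf : f ∈ Submodule.span ℂ (Set.range p)) : ∀ d : Fin n →₀ ℕ, N ≤ d i0 → coeff d f = 0 := by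
  induction hf using Submodule.span_induction with
  | mem x hx =>
    obtain ⟨j, rfl⟩ := hx
    intro d hd
    by_contra h
    have := monomial_le_degreeOf i0 (mem_support_iff.2 h)
    have := hN j
    omega
  | zero => intro d _; exact coeff_zero d
  | add x y _ _ hx hy => intro d hd; rw [coeff_add, hx d hd, hy d hd, add_zero]
  | smul c x _ hx => intro d hd; rw [coeff_smul, hx d hd, smul_zero]

theorem span_high899 {n b N : ℕ} (i0 : Fin n) (q : Fin b → MvPolynomial (Fin n) ℂ)
    (f : MvPolynomial (Fin n) ℂ)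
    (hf : f ∈ Submodule.span ℂ (Set.range fun j => X i0 ^ N * q j)) :
    ∀ d : Fin n →₀ ℕ, d i0 < N → coeff d f = 0 := by
  classical
  induction hf using Submodule.span_induction with
  | mem x hx =>
    obtain ⟨j, rfl⟩ := hx
    intro d hd
    simp only
    rw [X_pow_eq_monomial, coeff_monomial_mul', if_neg]
    intro h
    have := h i0
    simp at this
    omega
  | zero => intro d _; exact coeff_zero d
  | add x y _ _ hx hy => intro d hd; rw [coeff_add, hx d hd, hy d hd, add_zero]
  | smul c x _ hx => intro d hd; rw [coeff_smul, hx d hd, smul_zero]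

/-- sums -/
theorem rk_add {d n a b : ℕ} (hn : 1 ≤ n) (ha : Rk d n a) (hb : Rk d n b) : Rk d n (a + b) := by
  classical
  obtain ⟨p, A, hp, hpA⟩ := ha
  obtain ⟨q, B, hq, hqB⟩ := hb
  let i0 : Fin n := ⟨0, hn⟩
  let N : ℕ := (Finset.univ.sup fun j => degreeOf i0 (p j)) + 1
  have hN : ∀ j, degreeOf i0 (p j) < N := fun j =>
    Nat.lt_succ_of_le (Finset.le_sup (f := fun j => degreeOf i0 (p j)) (Finset.mem_univ j))
  refine ⟨Fin.append p (fun j => X i0 ^ N * q j),
    A + (X (Sum.inl i0) * X (Sum.inr i0)) ^ N * B, ?_, ?_⟩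
  · refine app_li899 p _ hp ?_ ?_
    · have h1 : (X i0 ^ N : MvPolynomial (Fin n) ℂ) ≠ 0 := pow_ne_zero _ (X_ne_zero i0)
      exact hq.map' (LinearMap.mulLeft ℂ (X i0 ^ N : MvPolynomial (Fin n) ℂ))
        (LinearMap.ker_eq_bot.2 (mul_right_injective₀ h1))
    · rw [Submodule.disjoint_def]
      intro x hx hx'
      ext e
      rw [coeff_zero]
      rcases lt_or_ge (e i0) N with h | h
      · exact span_high899 i0 q x hx' e h
      · exact span_low899 i0 p hN x hx e h
  · intro z
    have h1 : ((∑ j, ‖eval z (X i0 ^ N * q j)‖ ^ 2 : ℝ) : ℂ) =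
        (z i0 * star (z i0)) ^ N * ((∑ j, ‖eval z (q j)‖ ^ 2 : ℝ) : ℂ) := by
      have h2 : z i0 * star (z i0) = ((‖z i0‖ ^ 2 : ℝ) : ℂ) := by
        rw [Complex.star_def, Complex.mul_conj']
        push_cast
        rfl
      rw [h2, ← Complex.ofReal_pow, ← Complex.ofReal_mul, Finset.mul_sum]
      congr 1
      refine Finset.sum_congr rfl fun j _ => ?_
      rw [eval_mul, eval_pow, eval_X, norm_mul, norm_pow]
      ring
    rw [Fin.sum_univ_add]
    simp only [Fin.append_left, Fin.append_right]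
    rw [Complex.ofReal_add, hpA z, h1, hqB z, map_add, map_mul, map_pow, map_mul, eval_X, eval_X,
      Sum.elim_inl, Sum.elim_inr]
    ring

theorem cofin_gcd (g : ℕ) : ∀ (k d : ℕ), (∀ D, d ≤ D → g ∣ (D + k).choose k) → g ∣ 1
  | 0, d, h => by simpa using h d le_rfl
  | k + 1, d, h => by
    apply cofin_gcd g k (d + 1)
    intro D hD
    obtain ⟨D', rfl⟩ : ∃ D', D = D' + 1 := ⟨D - 1, by omega⟩
    have h1 := h (D' + 1) (by omega)
    have h2 := h D' (by omega)
    have e1 : D' + 1 + (k + 1) = (D' + 1 + k) + 1 := by ring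
    have e2 : D' + (k + 1) = D' + 1 + k := by ring
    rw [e1, Nat.choose_succ_succ] at h1
    rw [e2] at h2
    exact (Nat.dvd_add_left h2).1 h1

/-- a set closed under addition which contains the numbers `C(n+D-1,D)` is cofinite -/
theorem cofin {T : Set ℕ} (h0 : 0 ∈ T) (hadd : ∀ a ∈ T, ∀ b ∈ T, a + b ∈ T) (n d : ℕ)
    (hn : 1 ≤ n) (h : ∀ D, d ≤ D → (n + D - 1).choose D ∈ T) : ∃ M, ∀ m, M ≤ m → m ∈ T := by
  have hg : Nat.setGcd T ∣ 1 := by
    apply cofin_gcd (Nat.setGcd T) (n - 1) d
    intro D hD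
    have h1 := h D hD
    have e1 : n + D - 1 = D + (n - 1) := by omega
    rw [e1, Nat.choose_symm_add] at h1
    exact Nat.setGcd_dvd_of_mem h1
  obtain ⟨M, hM⟩ := Nat.exists_mem_closure_of_ge T
  refine ⟨M, fun m hm => ?_⟩
  have h1 := hM m hm ((Nat.dvd_one.1 hg).symm ▸ one_dvd m)
  let P : AddSubmonoid ℕ :=
    { carrier := T
      zero_mem' := h0
      add_mem' := fun {a b} ha hb => hadd a ha b hb }
  have h2 : AddSubmonoid.closure T ≤ P := (AddSubmonoid.closure_le).2 (fun x hx => hx)
  exact h2 h1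

/-- The set `S_d(n)` contains `0`, is closed under addition, contains all large integers, and its
least nonzero element is `C(n+d-1,d)`; for `n = 1` and `n = 2` the set is determined. -/
theorem result :
    (∀ n : ℕ, 1 ≤ n → ∀ d : ℕ,
      IsLeast {m | m ∈ S d n ∧ m ≠ 0} ((n + d - 1).choose d) ∧
      0 ∈ S d n ∧ (∀ a ∈ S d n, ∀ b ∈ S d n, a + b ∈ S d n) ∧
      ∃ M : ℕ, ∀ m, M ≤ m → m ∈ S d n) ∧
    (∀ d : ℕ, S d 1 = Set.univ) ∧
    (∀ d : ℕ, S d 2 = {m | m = 0 ∨ d + 1 ≤ m}) := by
  refine ⟨fun n hn d => ⟨⟨⟨rk_full d n d hn le_rfl, ?_⟩, ?_⟩, rk_zero d n,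
    fun a ha b hb => rk_add hn ha hb,
    cofin (T := S d n) (rk_zero d n) (fun a ha b hb => rk_add hn ha hb) n d hn
      (fun D hD => rk_full d n D hn hD)⟩, ?_, ?_⟩
  · exact (Nat.choose_pos (by omega)).ne'
  · rintro m ⟨hm, hm0⟩
    exact rk_lower d n m hn hm0 hm
  · intro d
    exact Set.eq_univ_of_forall fun m => one_var d m
  · intro d
    ext m
    constructor
    · intro h
      by_cases hm : m = 0
      · exact Or.inl hm
      · right
        have := rk_lower d 2 m (by norm_num) hm h
        have e : 2 + d - 1 = d + 1 := by omega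
        rw [e, Nat.choose_succ_self_right] at this
        exact this
    · rintro (rfl | h)
      · exact rk_zero d 2
      · have := rk_full d 2 (m - 1) (by norm_num) (by omega)
        have e : 2 + (m - 1) - 1 = (m - 1) + 1 := by omega
        rw [e, Nat.choose_succ_self_right] at this
        have e2 : m - 1 + 1 = m := by omega
        rw [e2] at this
        exact this

end Pool.Agent.Results.MP_ce7760_an.LeastRank
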